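import Mathlib
import Pool.Agent.KS6_57.TD.Meas

/-!
# `x_{n+1} = (α + x_n) / x_{n-2}`: every positive solution converges or is unbounded

In logarithmic coordinates `u_n = log x_n` the recurrence is `u_{n+1} + u_{n-2} = g (u_n)` with the
increasing function `g (t) = log (α + e^t)`. With a primitive `G` of `g`, the function
`V_n = u_{n-1} u_n + u_{n-2} u_{n-1} - u_n u_{n-2} - G (u_{n-1})` satisfies
`V_{n+1} - V_n = (u_n - u_{n-1}) g (u_n) - (G (u_n) - G (u_{n-1})) ≥ 0`, with equality only for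
`u_n = u_{n-1}` (strict convexity of `G`). So a bounded solution converges to the equilibrium. As
the map is volume preserving in these coordinates, the set of the points which are attracted by the
equilibrium is a null set.
-/

open Filter Topology Set MeasureTheory

namespace Pool.Agent.Results.MP_f66a6a_an.ConvergentOrUnbounded

/-- positive solutions of the recurrence; `x n` is the term of index `n - 2` of the problem -/
def IsSolution (α : ℝ) (x : ℕ → ℝ) : Prop :=
  (∀ n, 0 < x n) ∧ ∀ n, x (n + 3) = (α + x (n + 2)) / x n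

/-- the positive equilibrium, i.e. the positive root of `t ^ 2 = t + α` -/
noncomputable def equilibrium (α : ℝ) : ℝ := (1 + √(1 + 4 * α)) / 2

lemma exists_sol {α : ℝ} (hα : 0 < α) (p q r : ℝ) (hp : 0 < p) (hq : 0 < q) (hr : 0 < r) :
    ∃ x : ℕ → ℝ, IsSolution α x ∧ x 0 = p ∧ x 1 = q ∧ x 2 = r := by
  set S : ℝ × ℝ × ℝ → ℝ × ℝ × ℝ := fun a => (a.2.1, a.2.2, (α + a.2.2) / a.1) with hS
  set y : ℕ → ℝ × ℝ × ℝ := fun n => S^[n] (p, q, r) with hy
  have hsucc : ∀ n, y (n + 1) = S (y n) := fun n => Function.iterate_succ_apply' _ _ _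
  have hpos : ∀ n, 0 < (y n).1 ∧ 0 < (y n).2.1 ∧ 0 < (y n).2.2 := by
    intro n
    induction n with
    | zero => exact ⟨hp, hq, hr⟩
    | succ n ih =>
      rw [hsucc]
      refine ⟨ih.2.1, ih.2.2, ?_⟩
      have h1 := ih.1
      have h3 := ih.2.2
      simp only [hS]
      positivity
  refine ⟨fun n => (y n).1, ⟨fun n => (hpos n).1, fun n => ?_⟩, rfl, rfl, rfl⟩
  have h3 : y (n + 3) = S (S (S (y n))) := by rw [hsucc, hsucc, hsucc]
  have h2 : y (n + 2) = S (S (y n)) := by rw [hsucc, hsucc]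
  simp only [h3, h2, hS]

/-- Let `α > 0`. (0) Every positive initial triple has a solution. (1) Every positive solution
either converges to the equilibrium or has upper limit `∞` and lower limit `0`. (2) For almost
every initial triple (Lebesgue measure) the solution is unbounded. (3) The same holds for all
initial triples outside a meagre set. (4) The only periodic solution is the constant one. -/
theorem result (α : ℝ) (hα : 0 < α) :
    (∀ p q r : ℝ, 0 < p → 0 < q → 0 < r →
      ∃ x : ℕ → ℝ, IsSolution α x ∧ x 0 = p ∧ x 1 = q ∧ x 2 = r) ∧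
    (∀ x : ℕ → ℝ, IsSolution α x →
      Tendsto x atTop (𝓝 (equilibrium α)) ∨
      ((∀ C : ℝ, ∃ᶠ n in atTop, C < x n) ∧ ∀ ε : ℝ, 0 < ε → ∃ᶠ n in atTop, x n < ε)) ∧
    (∀ᵐ p : ℝ × ℝ × ℝ, ∀ x : ℕ → ℝ, IsSolution α x → (x 0, x 1, x 2) = p →
      ¬ BddAbove (range x)) ∧
    (∀ᶠ p : ℝ × ℝ × ℝ in residual (ℝ × ℝ × ℝ), ∀ x : ℕ → ℝ, IsSolution α x →
      (x 0, x 1, x 2) = p → ¬ BddAbove (range x)) ∧
    (∀ x : ℕ → ℝ, IsSolution α x → ∀ k : ℕ, 0 < k → (∀ n, x (n + k) = x n) →
      ∀ n, x n = equilibrium α) := by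
  refine ⟨exists_sol hα, fun x hx => KS6_57.TD.Sol.alt hα hx, ?_, ?_,
    fun x hx k hk hp n => KS6_57.TD.Sol.periodic hα hx hk hp n⟩
  · have h := KS6_57.TD.bad_null hα
    rw [ae_iff]
    refine measure_mono_null (fun p hp => ?_) h
    simp only [mem_setOf_eq, not_forall] at hp
    obtain ⟨x, hx, hxp, hb⟩ := hp
    exact ⟨x, hx, hxp, not_not.1 hb⟩
  · have h : (KS6_57.TD.Bad α)ᶜ ∈ residual (ℝ × ℝ × ℝ) := KS6_57.TD.bad_meagre hα
    filter_upwards [h] with p hp x hx hxp hb
    exact hp ⟨x, hx, hxp, hb⟩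

end Pool.Agent.Results.MP_f66a6a_an.ConvergentOrUnbounded
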